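import Pool.Agent.K3h39.CCS.Chain

/-!
Strong bisimilarity over full recursion-free CCS (prefixing, choice, parallel composition with synchronisation,
restriction, relabelling) extended with left merge and communication merge has no finite complete set of sound
equations when there are at least six names. All definitions used in the statement (terms, operational semantics,
bisimilarity, soundness, equational derivability) are in `Pool.Agent.K3h39.CCS.Defs`.
-/

namespace Pool.Agent.Results.MP_1be8fd_lc.NoFiniteBasis

open Pool.Agent.K3h39.CCS

/-- Sanity check: sound and complete sets of equations exist. -/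
theorem exists_sound_complete (N : Type) : ∃ E : Set (Term N ℕ × Term N ℕ), SoundSet E ∧ CompleteSet E := by
  refine ⟨{e | Sound e.1 e.2}, fun e he => he, fun t u h => ?_⟩
  have hid : ∀ v : Term N ℕ, v.subst Term.var = v := by
    intro v
    induction v with
    | var x => rfl
    | nil => rfl
    | pre μ t ih => simp [Term.subst, ih]
    | choice t u h1 h2 => simp [Term.subst, h1, h2]
    | par t u h1 h2 => simp [Term.subst, h1, h2]
    | lmerge t u h1 h2 => simp [Term.subst, h1, h2]
    | cmerge t u h1 h2 => simp [Term.subst, h1, h2]
    | restrict t L ih => simp [Term.subst, ih]
    | relabel t f ih => simp [Term.subst, ih]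
  have := Der.ax (E := {e : Term N ℕ × Term N ℕ | Sound e.1 e.2}) (t := t) (u := u) h Term.var
  rwa [hid, hid] at this

/-- Let `N` be a finite set of at least six names. Every complete set of sound equations for strong bisimilarity
over full recursion-free CCS with left merge and communication merge is infinite. Moreover, for every `m` there
is a sound equation which is not derivable from the (infinite) set of all sound equations both sides of which
have at most `m` occurrences of variables. -/
theorem result (N : Type) [Finite N] (h6 : 6 ≤ Nat.card N) :
    (∀ E : Set (Term N ℕ × Term N ℕ), SoundSet E → CompleteSet E → E.Infinite) ∧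
    (∀ m : ℕ, ∃ t u : Term N ℕ, Sound t u ∧
      ¬ Der {e : Term N ℕ × Term N ℕ | Sound e.1 e.2 ∧ e.1.occ ≤ m ∧ e.2.occ ≤ m} t u) :=
  ⟨fun _ hE hE' => infinite_of_complete h6 hE hE', fun m => not_complete_bounded h6 m⟩

end Pool.Agent.Results.MP_1be8fd_lc.NoFiniteBasis
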